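import Pool.Agent.Lib.MP_bc213e_ag.SB.Defs
import Pool.Agent.Lib.MP_bc213e_ag.KBD.Lift
import Pool.Agent.Lib.MP_bc213e_ag.OW.A.Loc
import Pool.Agent.Lib.MP_bc213e_ag.Psef.Gen
import Pool.Agent.Lib.MP_bc213e_ag.Hyp.PR

/-! Weil divisors on a normal projective variety and their sections. -/

namespace Pool.Agent.Lib.MP_bc213e_ag.SB

open Pool.Agent.Lib.MP_bc213e_ag.Hyp Pool.Agent.Lib.MP_bc213e_ag.KBB Pool.Agent.Lib.MP_bc213e_ag.OW
  WithZero Module Finsupp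

variable {k κ : Type} [Field k] [Algebra ℂ k] {y h u : κ → kˣ} {b₀ : κ}
  {D H M N : Prm y →₀ ℤ} {w₀ : Prm y} {f : k}

theorem r_triv (w : Prm y) : Triv w.1 := w.2.choose_spec.triv

/-- The sections of a Weil divisor. -/
abbrev GG (M : Prm y →₀ ℤ) : Submodule ℂ k := Gm (fun w : Prm y => w.1) r_triv M

theorem mem_GG : f ∈ GG M ↔ ∀ w : Prm y, w.1 f ≤ exp (M w) := Iff.rfl

theorem GG_mul {f' : k} (hf : f ∈ GG M) (hf' : f' ∈ GG N) : f * f' ∈ GG (M + N) := fun w => by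
  rw [map_mul, Finsupp.add_apply, exp_add]
  exact mul_le_mul' (hf w) (hf' w)

theorem GG_mono (e : M ≤ N) : GG M ≤ GG N := fun _ hf w => (hf w).trans (exp_le_exp.2 (e w))

theorem GG_le (hf : f ∈ GG M) (h0 : f ≠ 0) [FiniteDimensional ℂ (GG (M + N))] :
    FiniteDimensional ℂ (GG N) ∧ finrank ℂ (GG N) ≤ finrank ℂ (GG (M + N)) :=
  finrank_le_of_mul _ _ h0 fun _ => GG_mul hf

theorem GG_pr (hN : ∀ w : Prm y, w.1 f = exp (N w)) (h0 : f ≠ 0)
    (fd : ∀ M : Prm y →₀ ℤ, FiniteDimensional ℂ (GG M)) (M : Prm y →₀ ℤ) :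
    finrank ℂ (GG (M + N)) = finrank ℂ (GG M) := by
  refine le_antisymm ?_ (add_comm N M ▸ (GG_le (fun w => (hN w).le) h0).2)
  have := (GG_le (M := -N) (N := M + N) (fun w => by
    rw [map_inv₀, hN w, Finsupp.neg_apply, exp_neg]) (inv_ne_zero h0)).2
  rwa [add_comm M N, neg_add_cancel_left, add_comm N M] at this

/-- `D` is the Weil divisor of the cocycle `u`. -/
def IsDiv (u : κ → kˣ) (D : Prm y →₀ ℤ) : Prop :=
  ∀ b (w : Prm y), PrimeDiv (chart y b) w.1 → w.1 (u b) = exp (D w)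

theorem r_cart {b b' : κ} {w : Val k} (hc : Cart y u) (hb : PrimeDiv (chart y b) w)
    (hb' : PrimeDiv (chart y b') w) : w (u b) ≤ w (u b') := by
  obtain ⟨e, he⟩ := hc b b'
  have := hb'.2.1 _ he
  rwa [map_mul, map_pow, (primeDiv_chart hb' b).1 hb, one_pow, mul_one, map_div₀,
    div_le_one₀ (Basic_pos w _)] at this

theorem IsDiv.nonneg (hH : IsDiv y H) (one : y b₀ = 1) : 0 ≤ H := fun w => by
  obtain ⟨b, hb⟩ := w.2
  have := hb.2.1 _ (Basic_mem y b b₀)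
  rwa [map_div₀, div_le_one₀ (Basic_pos _ _), hH b w hb, one, Units.val_one, map_one, ← exp_zero,
    exp_le_exp] at this

theorem IsDiv.fr (hD : IsDiv h D) (hH : IsDiv y H) (t s : ℕ) {b : κ} {w : Prm y}
    (hb : PrimeDiv (chart y b) w.1) : w.1 (fr y h t s b) = exp ((s • H + t • D) w) := by
  rw [KBB.fr, zpow_natCast, map_mul, map_pow, map_pow, hD b w hb, hH b w hb, ← exp_nsmul,
    ← exp_nsmul, ← exp_add, add_comm]
  rfl

theorem IsDiv.sec (hD : IsDiv h D) (hH : IsDiv y H) {t s : ℕ} (hf : Sec y h t s f) :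
    f ∈ GG (s • H + t • D) := fun w => by
  obtain ⟨b, hb⟩ := w.2
  have := hb.2.1 _ (sec_iff_fr.1 hf b)
  rwa [map_div₀, hD.fr hH t s hb, div_le_one₀ exp_pos] at this

/-- The divisor `M` has a section that does not vanish along `w₀`. -/
def Ex (w₀ : Prm y) (M : Prm y →₀ ℤ) : Prop := ∃ e ∈ GG M, w₀.1 e = exp (M w₀)

theorem Ex.add (h : Ex w₀ M) (h' : Ex w₀ N) : Ex w₀ (M + N) :=
  let ⟨e, h1, h2⟩ := h
  let ⟨e', h3, h4⟩ := h'
  ⟨e * e', GG_mul h1 h3, by rw [map_mul, h2, h4, Finsupp.add_apply, exp_add]⟩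

theorem ex_pos (h0 : 0 ≤ M) (h1 : M w₀ = 0) : Ex w₀ M :=
  ⟨1, fun w => by rw [map_one, ← exp_zero, exp_le_exp]; exact h0 w, by rw [map_one, h1, exp_zero]⟩

theorem Ex.nsmul (h : Ex w₀ M) (s : ℕ) : Ex w₀ (s • M) := by
  induction s with
  | zero => exact ex_pos (by simp) (by simp)
  | succ s ih => exact succ_nsmul M s ▸ ih.add h

theorem r_secy (y : κ → kˣ) {b : κ} {r : k} [Fintype κ] (hr : r ∈ chart y b) :
    ∃ s : ℕ, Sec y y (0 : ℕ) s (r * (y b : k) ^ s) := by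
  choose e he using fun l => chart_trans y b l hr
  refine ⟨Finset.univ.sup e, fun l => ?_⟩
  obtain ⟨m, hm⟩ := Nat.exists_eq_add_of_le (Finset.le_sup (f := e) (Finset.mem_univ l))
  have := mul_mem (he l) (pow_mem (Basic_mem y l b) m)
  rw [mul_assoc, ← pow_add, ← hm, div_pow, ← mul_div_assoc] at this
  simpa using this

theorem IsDiv.ex (hH : IsDiv y H) : Ex w₀ H := by
  obtain ⟨b, hb⟩ := w₀.2
  refine ⟨y b, ?_, hH b w₀ hb⟩
  simpa using hH.sec hH (t := 0) (KBD.sec_x y y b 1)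

variable [Fintype κ]

theorem IsDiv.ex_sub (hH : IsDiv y H) {w : Prm y} (hw : w ≠ w₀) :
    ∃ s : ℕ, Ex w₀ (s • H - single w 1) := by
  obtain ⟨b, hb⟩ := w₀.2
  obtain ⟨s, e, h1, h2, h3⟩ : ∃ s : ℕ, ∃ e ∈ GG (s • H), w₀.1 e = exp ((s • H) w₀) ∧
      w.1 e < exp ((s • H) w) := by
    by_cases hb' : PrimeDiv (chart y b) w.1
    · obtain ⟨r, hr, r1, r2⟩ := Psef.exists_sep hb' hb fun e => hw (Subtype.ext e)
      obtain ⟨s, hs⟩ := r_secy y hr
      refine ⟨s, _, by simpa using hH.sec hH hs, ?_, ?_⟩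
      · rw [map_mul, r2, one_mul, map_pow, hH b w₀ hb, ← exp_nsmul]
        rfl
      · rw [map_mul, map_pow, hH b w hb', ← exp_nsmul]
        exact mul_lt_of_lt_one_left exp_pos r1
    · obtain ⟨l, hl⟩ := w.2
      refine ⟨1, y b, by simpa using hH.sec hH (t := 0) (KBD.sec_x y y b 1), ?_, ?_⟩ <;>
        rw [one_nsmul]
      · exact hH b w₀ hb
      · have := (hl.2.1 _ (Basic_mem y l b)).lt_of_ne (mt (primeDiv_chart hl b).2 hb')
        rwa [map_div₀, div_lt_one₀ (Basic_pos _ _), hH l w hl] at this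
  refine ⟨s, e, fun v => ?_, by rw [h2, Finsupp.sub_apply, single_eq_of_ne hw.symm, sub_zero]⟩
  by_cases hv : v = w
  · rw [hv, Finsupp.sub_apply, single_eq_same, sub_eq_add_neg, exp_add, mul_comm,
      ← div_le_iff₀ exp_pos]
    exact primeExp ((div_lt_one₀ exp_pos).2 h3)
  · rw [Finsupp.sub_apply, single_eq_of_ne hv, sub_zero]
    exact h1 v

theorem IsDiv.ex_erase (hH : IsDiv y H) (M : Prm y →₀ ℤ) :
    ∃ s : ℕ, Ex w₀ (s • H + M.erase w₀) := by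
  induction M using Finsupp.induction_linear with
  | zero => exact ⟨0, ex_pos (by simp) (by simp)⟩
  | add M N hM hN =>
    obtain ⟨s, hs⟩ := hM
    obtain ⟨s', hs'⟩ := hN
    exact ⟨s + s', by rw [erase_add, add_nsmul, add_add_add_comm]; exact hs.add hs'⟩
  | single w n =>
    by_cases hw : w = w₀
    · exact ⟨0, ex_pos (by simp [hw]) (by simp)⟩
    rw [erase_single_ne (Ne.symm hw)]
    rcases le_total 0 n with hn | hn
    · exact ⟨0, ex_pos (by simpa using hn) (by simp [Ne.symm hw])⟩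
    obtain ⟨m, rfl⟩ := Int.exists_eq_neg_ofNat hn
    obtain ⟨s, hs⟩ := hH.ex_sub hw
    refine ⟨m * s, ?_⟩
    have := hs.nsmul m
    rwa [smul_sub, smul_single, ← mul_smul, nsmul_one, sub_eq_add_neg, ← single_neg] at this

variable (frac : ∀ b, IsFractionRing (chart y b) k)
include frac

theorem exists_cdiv (hc : Cart y u) : ∃ D : Prm y →₀ ℤ, IsDiv u D := by
  have e : ∀ b (w : Prm y), PrimeDiv (chart y b) w.1 → w.1 (u w.2.choose) = w.1 (u b) :=
    fun b w hb => le_antisymm (r_cart hc w.2.choose_spec hb) (r_cart hc hb w.2.choose_spec)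
  refine ⟨ofSupportFinite (fun w => log (w.1 (u w.2.choose))) ?_, fun b w hb => ?_⟩
  · refine (Set.finite_iUnion fun b => ?_ : (⋃ b, Subtype.val ⁻¹'
      {w : Val k | PrimeDiv (chart y b) w ∧ w (u b) ≠ 1}).Finite).subset fun w hw =>
        Set.mem_iUnion.2 ⟨_, w.2.choose_spec, fun e => hw (by simp [e])⟩
    have := chart_noeth y b
    exact (finite_supp (u b).ne_zero).preimage Subtype.val_injective.injOn
  · rw [ofSupportFinite_coe, e b w hb, exp_log (Basic_pos _ _).ne']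

theorem exists_pdiv (h0 : f ≠ 0) : ∃ N : Prm y →₀ ℤ, ∀ w : Prm y, w.1 f = exp (N w) :=
  (exists_cdiv frac (u := fun _ => Units.mk0 f h0) fun i j => ⟨0, by simp [h0]⟩).imp
    fun _ hN w => hN _ w w.2.choose_spec

theorem IsDiv.ex_large (hH : IsDiv y H) (w₀ : Prm y) (M : Prm y →₀ ℤ) :
    ∃ s₁ : ℕ, ∀ s, s₁ ≤ s → Ex w₀ (M + s • H) := by
  obtain ⟨π, hπ⟩ := w₀.2.choose_spec.1
  have h0 : π ≠ 0 := fun e => by simpa [e] using hπ.symm
  obtain ⟨N, hN⟩ := exists_pdiv frac (zpow_ne_zero (-M w₀) h0)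
  have h1 : N w₀ = M w₀ := by
    have := hN w₀
    rw [map_zpow₀, hπ, ← exp_zsmul, exp_inj] at this
    simpa using this.symm
  obtain ⟨s₁, hs⟩ := hH.ex_erase (w₀ := w₀) (M - N)
  refine ⟨s₁, fun s hs' => ?_⟩
  obtain ⟨m, rfl⟩ := Nat.exists_eq_add_of_le hs'
  have := (hs.add ⟨_, fun w => (hN w).le, hN w₀⟩).add (hH.ex.nsmul m)
  rwa [erase_of_notMem_support (by simp [h1]), add_assoc (s₁ • H), sub_add_cancel, add_comm _ M,
    add_assoc, ← add_nsmul] at this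

theorem IsDiv.ex_ne (hH : IsDiv y H) (M : Prm y →₀ ℤ) :
    ∃ s₁ : ℕ, ∀ s, s₁ ≤ s → ∃ e ∈ GG (M + s • H), e ≠ 0 := by
  rcases isEmpty_or_nonempty (Prm y) with h0 | ⟨⟨w₀⟩⟩
  · exact ⟨0, fun s _ => ⟨1, fun w => h0.elim w, one_ne_zero⟩⟩
  · exact (hH.ex_large frac w₀ M).imp fun _ hs s h1 => (hs s h1).imp fun e he =>
      ⟨he.1, fun h2 => by simpa [h2] using he.2.symm⟩

variable (norm : ∀ b, IsIntegrallyClosed (chart y b))
include norm

theorem IsDiv.secS (hD : IsDiv h D) (hH : IsDiv y H) (t s : ℕ) :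
    SecS y h t s = GG (s • H + t • D) := by
  refine le_antisymm (fun f hf => hD.sec hH hf) fun f hf b => ?_
  have := chart_noeth y b
  refine hartogs fun w hw => ?_
  change w (f / KBB.fr y h t s b) ≤ 1
  rw [map_div₀, hD.fr hH t s (w := ⟨w, b, hw⟩) hw, div_le_one₀ exp_pos]
  exact hf ⟨w, b, hw⟩

theorem IsDiv.le (hD : IsDiv h D) (hH : IsDiv y H) (hc : Cart y h) (hn : Nef y h) (b₀ : κ)
    (M : Prm y →₀ ℤ) : ∃ s₁, ∀ s t : ℕ, s₁ ≤ s → FiniteDimensional ℂ (GG (M + t • D)) ∧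
      finrank ℂ (GG (M + t • D)) ≤ finrank ℂ (SecS y h t s) := by
  obtain ⟨s₁, h1⟩ := hH.ex_ne frac (-M)
  refine ⟨s₁, fun s t hs => ?_⟩
  obtain ⟨e, h2, h3⟩ := h1 s hs
  have := KBD.secS_fd hc hn b₀ t s
  rw [hD.secS frac norm hH, show s • H + t • D = -M + s • H + (M + t • D) by abel] at this ⊢
  exact GG_le h2 h3

end Pool.Agent.Lib.MP_bc213e_ag.SB
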