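import Pool.Agent.Lib.MP_bc213e_ag.SB.R.Loc

/-! The virtual curve of a nef line bundle of numerical dimension at most one on a surface. -/

namespace Pool.Agent.Lib.MP_bc213e_ag.SB

open Pool.Agent.Lib.MP_bc213e_ag.Hyp Pool.Agent.Lib.MP_bc213e_ag.KBB Pool.Agent.Lib.MP_bc213e_ag.OW
  WithZero Module Polynomial

variable {k κ : Type} [Field k] [Algebra ℂ k] [Fintype κ] {y h : κ → kˣ} {b₀ : κ}

theorem exists_vc (one : y b₀ = 1) (frac : ∀ b, IsFractionRing (chart y b) k)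
    (norm : ∀ b, IsIntegrallyClosed (chart y b)) (hc : Cart y h) (hn : Nef y h)
    (dim : Algebra.trdeg ℂ k ≤ 2)
    (lin : ∀ s : ℕ, ∃ c : ℚ, ∀ t : ℕ, (finrank ℂ (SecS y h t s) : ℚ) ≤ c * (t + 1)) :
    ∃ (C : VC k (Prm y)) (H : Prm y →₀ ℤ) (p₀ : ℚ[X]) (s₀ : ℕ), (∀ w, C.v w = w.1) ∧
      (∀ b (w : Prm y), PrimeDiv (chart y b) w.1 →
        w.1 (h b) = exp (C.D w) ∧ w.1 (y b) = exp (H w)) ∧ 0 ≤ H ∧
      (C.c₁ ≤ 0 ∨ 0 < dg C.d H) ∧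
      (∀ t s : ℕ, s₀ ≤ s →
        (finrank ℂ (SecS y h t s) : ℚ) = t * (C.σ + s * dg C.d H) + p₀.eval (s : ℚ)) ∧
      ∀ M, ∃ s₁, ∀ s t : ℕ, s₁ ≤ s →
        finrank ℂ (Gm C.v C.triv (M + t • C.D)) ≤ finrank ℂ (SecS y h t s) := by
  obtain ⟨D, hD⟩ := exists_cdiv frac hc
  obtain ⟨H, hH⟩ := exists_cdiv frac (u := y) fun i j => ⟨0, by simpa using Basic_mem y j i⟩
  have fd : ∀ M : Prm y →₀ ℤ, FiniteDimensional ℂ (GG M) := fun M => by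
    obtain ⟨s, hs⟩ := hD.le frac norm hH hc hn b₀ M
    have := (hs s 0 le_rfl).1
    rwa [zero_nsmul, add_zero] at this
  choose d d0 mod inc using r_loc frac norm hc hn dim hD hH fd
  have : Nonempty κ := ⟨b₀⟩
  obtain ⟨P, s₀, hP⟩ := uniform y h hc hn
  obtain ⟨p, q, hp⟩ := r_lin (fun t s hs => (hP t s hs).2) lin
  have N : ∀ s₁, s₀ ≤ s₁ → RN (fun M => finrank ℂ (GG M))
      (fun N => ∃ f : k, f ≠ 0 ∧ ∀ w : Prm y, w.1 f = exp (N w)) d D H (fun s => p.eval (s : ℚ))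
      (fun s => q.eval (s : ℚ)) s₁ := fun s₁ hs₁ =>
    ⟨d0, hH.nonneg one, fun _ => Nat.cast_nonneg _,
      fun _ _ e => Nat.cast_le.2 (Submodule.finrank_mono (GG_mono e)),
      fun M _ ⟨_, h0, hf⟩ => congrArg Nat.cast (GG_pr hf h0 fd M), fun M hM => by
        obtain ⟨f, hf, h0⟩ := Submodule.exists_mem_ne_zero_of_ne_bot (p := GG M)
          fun e => by rw [e, finrank_bot, Nat.cast_zero] at hM; exact hM.false
        obtain ⟨N, hN⟩ := exists_pdiv frac h0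
        exact ⟨N, ⟨f, h0, hN⟩, fun w => exp_le_exp.1 (hN w ▸ hf w)⟩,
      fun M i => mod i M, fun M i => inc i M, fun t s hs => by
        rw [← hD.secS frac norm hH, hp t s (hs₁.trans hs)]⟩
  obtain ⟨σ, s₁, h1, hσ⟩ := (N s₀ le_rfl).slope
  obtain ⟨c₁, h2, up⟩ := (N s₁ h1).up hσ
  refine ⟨⟨fun w => w.1, r_triv, fun w => w.2.choose_spec.1, d, d0, D, σ, c₁, fun f h0 => ?_,
    (N s₁ h1).degD, fd, (N s₁ h1).low hσ, fun M i => mod i M, up⟩, H, q, s₁, fun _ => rfl,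
    fun b w hb => ⟨hD b w hb, hH b w hb⟩, hH.nonneg one, h2, fun t s hs => ?_, fun M =>
      (hD.le frac norm hH hc hn b₀ M).imp fun _ e s t hs => (e s t hs).2⟩
  · exact (exists_pdiv frac h0).imp fun M hM => ⟨hM, (N s₁ h1).pf ⟨f, h0, hM⟩⟩
  · rw [hp t s (h1.trans hs), hσ s hs]

end Pool.Agent.Lib.MP_bc213e_ag.SB
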