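import Pool.Agent.Lib.MP_bc213e_ag.SB.VC

/-! The numerical part of the construction of the virtual curve. -/

namespace Pool.Agent.Lib.MP_bc213e_ag.SB

open Filter Polynomial Finsupp

theorem r_deg (q : ℚ[X]) (n a : ℕ) (c : ℚ)
    (h : ∀ t : ℕ, a ≤ t → |q.eval (t : ℚ)| ≤ c * ((t : ℚ) + 1) ^ n) : q.natDegree ≤ n := by
  by_contra hn
  have h1 : ((X + C 1 : ℚ[X]) ^ n).natDegree = n := by
    rw [(monic_X_add_C 1).natDegree_pow, natDegree_X_add_C, mul_one]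
  have h2 := (abs_div_tendsto_atTop_atTop_of_degree_gt q ((X + C 1) ^ n)
    (degree_lt_degree (by omega)) ((monic_X_add_C 1).pow n).ne_zero).comp
      tendsto_natCast_atTop_atTop
  obtain ⟨t, h3, h4⟩ := ((h2.eventually_gt_atTop c).and (eventually_ge_atTop a)).exists
  have h5 : (0 : ℚ) < ((t : ℚ) + 1) ^ n := by positivity
  simp only [Function.comp, eval_pow, eval_add, eval_X, eval_C, abs_div, abs_of_pos h5] at h3
  exact (h t h4).not_gt ((lt_div_iff₀ h5).1 h3)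

theorem r_lin {u : ℕ → ℕ → ℕ} {P : MvPolynomial (Fin 2) ℚ} {a : ℕ}
    (hP : ∀ t s : ℕ, a ≤ s → (u t s : ℚ) = MvPolynomial.eval ![(t : ℚ), (s : ℚ)] P)
    (lin : ∀ s, ∃ c : ℚ, ∀ t : ℕ, (u t s : ℚ) ≤ c * (t + 1)) :
    ∃ p q : ℚ[X], ∀ t s : ℕ, a ≤ s → (u t s : ℚ) = t * p.eval (s : ℚ) + q.eval (s : ℚ) := by
  let Q : ℚ[X][X] := MvPolynomial.aeval ![X, C X] P
  have e : ∀ t s : ℚ, (Q.map (evalRingHom s)).eval t = MvPolynomial.eval ![t, s] P := fun t s => by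
    simp only [Q]
    clear Q hP
    induction P using MvPolynomial.induction_on with
    | C c => simp
    | add p q hp hq => simp only [map_add, Polynomial.map_add, eval_add, hp, hq]
    | mul_X p i hp =>
      simp only [map_mul, Polynomial.map_mul, eval_mul, hp]
      fin_cases i <;> simp
  refine ⟨Q.coeff 1, Q.coeff 0, fun t s hs => ?_⟩
  obtain ⟨c, hc⟩ := lin s
  have h1 := eq_X_add_C_of_natDegree_le_one (r_deg (Q.map (evalRingHom s)) 1 0 c fun t _ => by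
    rw [e, ← hP t s hs, pow_one, abs_of_nonneg (Nat.cast_nonneg _)]
    exact hc t)
  rw [hP t s hs, ← e, h1, eval_add, eval_mul, eval_C, eval_C, eval_X, coeff_map, coeff_map,
    mul_comm]
  rfl

theorem r_le {a b c : ℚ} (h : ∀ t : ℕ, t * a ≤ t * b + c) : a ≤ b := by
  by_contra hn
  have h0 := sub_pos.2 (not_le.1 hn)
  obtain ⟨t, ht⟩ := exists_nat_gt (c / (a - b))
  have := (div_lt_iff₀ h0).1 ht
  linarith [h t]

theorem r_const {u : ℕ → ℕ → ℕ} {P : MvPolynomial (Fin 2) ℚ} {a B e : ℕ}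
    (hP : ∀ t s : ℕ, a ≤ s → (u t s : ℚ) = MvPolynomial.eval ![(t : ℚ), (s : ℚ)] P)
    (hB : ∀ t s, u t s ≤ B * (t * e + s + 1)) :
    ∃ d : ℚ, 0 ≤ d ∧ ∀ s, a ≤ s → ∃ c : ℚ, ∀ t : ℕ, (u t s : ℚ) = t * d + c := by
  have hB' : ∀ t s, (u t s : ℚ) ≤ t * (B * e) + B * (s + 1) := fun t s => by
    have : (u t s : ℚ) ≤ B * (t * e + s + 1) := by exact_mod_cast hB t s
    linarith
  obtain ⟨p, q, h⟩ := r_lin hP fun s => ⟨B * e + B * (s + 1), fun t => (hB' t s).trans (by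
    have h1 : (0 : ℚ) ≤ B * e := by positivity
    have h2 : (0 : ℚ) ≤ B * (s + 1) * t := by positivity
    linarith)⟩
  have h0 : ∀ s : ℕ, a ≤ s → 0 ≤ p.eval (s : ℚ) := fun s hs =>
    r_le (c := q.eval (s : ℚ)) fun t => by rw [← h t s hs, mul_zero]; positivity
  have h1 := eq_C_of_natDegree_le_zero (r_deg p 0 a (B * e) fun s hs => by
    rw [abs_of_nonneg (h0 s hs), pow_zero, mul_one]
    exact r_le (c := B * (s + 1) - q.eval (s : ℚ)) fun t => by linarith [h t s hs, hB' t s])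
  refine ⟨p.coeff 0, ?_, fun s hs => ⟨q.eval (s : ℚ), fun t => ?_⟩⟩
  · have := h0 a le_rfl
    rwa [h1, eval_C] at this
  · rw [h t s hs, h1, eval_C, coeff_C_zero]

variable {I : Type} {d : I → ℚ}

theorem r_add (M N : I →₀ ℤ) : dg d (M + N) = dg d M + dg d N :=
  sum_add_index' (fun _ => by simp) fun _ _ _ => by push_cast; ring

theorem r_zero : dg d 0 = 0 := sum_zero_index

theorem r_single (i : I) : dg d (single i 1) = d i := by simp [dg]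

theorem r_sub (M N : I →₀ ℤ) : dg d (M - N) = dg d M - dg d N := by
  rw [eq_sub_iff_add_eq, ← r_add, sub_add_cancel]

theorem r_nsmul (s : ℕ) (M : I →₀ ℤ) : dg d (s • M) = s * dg d M := by
  induction s with
  | zero => simp [r_zero]
  | succ s ih => rw [succ_nsmul, r_add, ih, Nat.cast_succ, add_one_mul]

theorem r_ind {P : (I →₀ ℤ) → Prop} (h0 : P 0) (h : ∀ M i, P M ↔ P (M + single i 1))
    (M : I →₀ ℤ) : P M := by
  induction M using Finsupp.induction with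
  | zero => exact h0
  | single_add a b f _ hb ih =>
    clear hb
    induction b using Int.induction_on with
    | zero => simpa using ih
    | succ n hn => rw [single_add, add_right_comm]; exact (h _ a).1 hn
    | pred n hn =>
      refine (h _ a).2 ?_
      rwa [add_right_comm, ← single_add, sub_add_cancel]

theorem r_ind_pos {P : (I →₀ ℤ) → Prop} (h0 : P 0) (h : ∀ M i, P M → P (M + single i 1))
    (M : I →₀ ℤ) : 0 ≤ M → P M := by
  induction M using Finsupp.induction with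
  | zero => exact fun _ => h0
  | single_add a b f ha hb ih =>
    intro hM
    have h1 := notMem_support_iff.1 ha
    obtain ⟨n, rfl⟩ := Int.eq_ofNat_of_zero_le (a := b) (by simpa [h1] using hM a)
    have h2 : P f := ih fun i => by
      by_cases e : i = a
      · simp [e, h1]
      · simpa [e] using hM i
    clear hb hM
    induction n with
    | zero => simpa using h2
    | succ n hn => rw [Nat.cast_succ, single_add, add_right_comm]; exact h _ a hn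

/-- The numerical data from which the virtual curve is built. -/
structure RN (n : (I →₀ ℤ) → ℚ) (Pr : (I →₀ ℤ) → Prop) (d : I → ℚ) (D H : I →₀ ℤ)
    (p q : ℕ → ℚ) (s₀ : ℕ) : Prop where
  hd : ∀ i, 0 ≤ d i
  hH : 0 ≤ H
  pos : ∀ M, 0 ≤ n M
  mono : ∀ M N, M ≤ N → n M ≤ n N
  pr : ∀ M N, Pr N → n (M + N) = n M
  eff : ∀ M, 0 < n M → ∃ N, Pr N ∧ N ≤ M
  mod : ∀ M i, ∃ C : ℚ, ∀ t : ℕ, n (M + single i 1 + t • D) ≤ n (M + t • D) + t * d i + C
  inc : ∀ M i, ∃ s₁, ∀ s : ℕ, s₁ ≤ s → ∃ C : ℚ, ∀ t : ℕ,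
    n (M + s • H + t • D) + t * d i - C ≤ n (M + single i 1 + s • H + t • D)
  lin : ∀ t s : ℕ, s₀ ≤ s → n (s • H + t • D) = t * p s + q s

namespace RN

variable {n : (I →₀ ℤ) → ℚ} {Pr : (I →₀ ℤ) → Prop} {D H : I →₀ ℤ} {p q : ℕ → ℚ} {s₀ : ℕ}
  (h : RN n Pr d D H p q s₀)
include h

theorem rate (M : I →₀ ℤ) : ∃ s₁, ∀ s : ℕ, s₁ ≤ s → ∃ C : ℚ, ∀ t : ℕ,
    |n (M + s • H + t • D) - t * (dg d M + p s)| ≤ C := by
  refine r_ind (P := fun M => ∃ s₁, ∀ s : ℕ, s₁ ≤ s → ∃ C : ℚ, ∀ t : ℕ,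
    |n (M + s • H + t • D) - t * (dg d M + p s)| ≤ C) ⟨s₀, fun s hs => ⟨|q s|, fun t => ?_⟩⟩
    (fun M i => ?_) M
  · simp [h.lin t s hs, r_zero]
  obtain ⟨s₂, h2⟩ := h.inc M i
  constructor <;> rintro ⟨s₁, h1⟩ <;> refine ⟨s₁ + s₂, fun s hs => ?_⟩ <;>
    obtain ⟨C, h1⟩ := h1 s (by omega) <;> obtain ⟨C', h2⟩ := h2 s (by omega) <;>
    obtain ⟨C'', h3⟩ := h.mod (M + s • H) i <;> refine ⟨C + |C'| + |C''|, fun t => ?_⟩ <;>
    have a1 := abs_le.1 (h1 t) <;> have a2 := h2 t <;> have a3 := h3 t <;>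
    rw [add_right_comm M] at a3 <;> simp only [r_add, r_single] at a1 ⊢ <;> rw [abs_le] <;>
    constructor <;> linarith [le_abs_self C', le_abs_self C'', abs_nonneg C', abs_nonneg C'']

theorem eq {M : I →₀ ℤ} {a : ℕ → ℚ}
    (e : ∀ s, s₀ ≤ s → ∃ c, ∀ t : ℕ, n (M + s • H + t • D) = t * a s + c) :
    ∃ s₁, s₀ ≤ s₁ ∧ ∀ s, s₁ ≤ s → a s = dg d M + p s := by
  obtain ⟨s₁, h1⟩ := h.rate M
  refine ⟨s₀ + s₁, by omega, fun s hs => ?_⟩
  obtain ⟨C, h1⟩ := h1 s (by omega)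
  obtain ⟨c, e⟩ := e s (by omega)
  exact le_antisymm (r_le (c := C - c) fun t => by linarith [(abs_le.1 (h1 t)).2, e t])
    (r_le (c := C + c) fun t => by linarith [(abs_le.1 (h1 t)).1, e t])

theorem pf {N : I →₀ ℤ} (hN : Pr N) : dg d N = 0 := by
  obtain ⟨s, -, e⟩ := h.eq (M := N) (a := p) fun s hs => ⟨q s, fun t => by
    rw [add_assoc, add_comm, h.pr _ _ hN, h.lin t s hs]⟩
  linarith [e s le_rfl]

theorem degD : dg d D = 0 := by
  obtain ⟨s, -, e⟩ := h.eq (M := D) (a := p) fun s hs => ⟨p s + q s, fun t => by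
    rw [add_comm D, add_assoc, ← succ_nsmul', h.lin _ s hs]
    push_cast
    ring⟩
  linarith [e s le_rfl]

theorem slope : ∃ σ s₁, s₀ ≤ s₁ ∧ ∀ s, s₁ ≤ s → p s = σ + s * dg d H := by
  obtain ⟨s₁, h1, e⟩ := h.eq (M := H) (a := fun s => p (s + 1)) fun s hs => ⟨q (s + 1), fun t => by
    rw [← succ_nsmul', h.lin _ _ (by omega)]⟩
  refine ⟨p s₁ - s₁ * dg d H, s₁, h1, fun s hs => ?_⟩
  induction s, hs using Nat.le_induction with
  | base => ring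
  | succ s hs ih =>
    rw [e s hs, ih]
    push_cast
    ring

theorem step (G : I →₀ ℤ) (hG : 0 ≤ G) : 0 ≤ dg d G ∧ ∀ M, ∃ C : ℚ, ∀ t : ℕ,
    n (M + G + t • D) ≤ n (M + t • D) + t * dg d G + C := by
  refine r_ind_pos (P := fun G => 0 ≤ dg d G ∧ ∀ M, ∃ C : ℚ, ∀ t : ℕ,
    n (M + G + t • D) ≤ n (M + t • D) + t * dg d G + C) ⟨r_zero.ge, fun M => ⟨0, fun t => ?_⟩⟩
    (fun G i ⟨h0, ih⟩ => ⟨?_, fun M => ?_⟩) G hG
  · simp [r_zero]
  · rw [r_add, r_single]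
    exact add_nonneg h0 (h.hd i)
  · obtain ⟨C, h1⟩ := ih M
    obtain ⟨C', h2⟩ := h.mod (M + G) i
    exact ⟨C + C', fun t => by
      rw [r_add, r_single, ← add_assoc M]
      linarith [h1 t, h2 t]⟩

variable {σ : ℚ} (hσ : ∀ s, s₀ ≤ s → p s = σ + s * dg d H)
include hσ

theorem low (M : I →₀ ℤ) : ∃ C : ℚ, ∀ t : ℕ, t * (dg d M + σ) - C ≤ n (M + t • D) := by
  obtain ⟨s, h1⟩ := h.rate M
  obtain ⟨C, h1⟩ := h1 (s + s₀) (by omega)
  obtain ⟨C', h2⟩ := (h.step _ (nsmul_nonneg h.hH (s + s₀))).2 M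
  refine ⟨C + C', fun t => ?_⟩
  have := (abs_le.1 (h1 t)).1
  rw [hσ _ (by omega)] at this
  linarith [h2 t, congrArg ((t : ℚ) * ·) (r_nsmul (d := d) (s + s₀) H)]

theorem up1 {M : I →₀ ℤ} (hM : 0 < dg d M - s₀ * dg d H + σ) :
    ∃ C : ℚ, ∀ t : ℕ, n (M + t • D) ≤ t * (dg d M + σ) + C := by
  obtain ⟨C, h1⟩ := h.low hσ (M - s₀ • H)
  obtain ⟨t₁, h2⟩ := exists_nat_gt (C / (dg d M - s₀ * dg d H + σ))
  obtain ⟨N, hN, h3⟩ := h.eff (M - s₀ • H + t₁ • D) (lt_of_lt_of_le (by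
    rw [r_sub, r_nsmul]
    exact sub_pos.2 ((div_lt_iff₀ hM).1 h2)) (h1 t₁))
  obtain ⟨C', h4⟩ := (h.step _ (sub_nonneg.2 h3)).2 (s₀ • H)
  have h5 : 0 ≤ dg d M + σ := by
    linarith [mul_nonneg (Nat.cast_nonneg (α := ℚ) s₀) (h.step _ h.hH).1]
  have h6 := Finset.sum_nonneg (s := Finset.range t₁) fun t _ => h.pos (M + t • D)
  refine ⟨|q s₀ + C'| + ∑ t ∈ Finset.range t₁, n (M + t • D), fun t => ?_⟩
  rcases lt_or_ge t t₁ with ht | ht
  · have := Finset.single_le_sum (fun t _ => h.pos (M + t • D)) (Finset.mem_range.2 ht)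
    linarith [abs_nonneg (q s₀ + C'), mul_nonneg (Nat.cast_nonneg (α := ℚ) t) h5]
  obtain ⟨t, rfl⟩ := Nat.exists_eq_add_of_le ht
  have h7 := h4 t
  rw [← h.pr _ N hN, h.lin t s₀ le_rfl, hσ _ le_rfl, r_sub, r_add, r_sub, r_nsmul, r_nsmul,
    h.degD, h.pf hN, show s₀ • H + (M - s₀ • H + t₁ • D - N) + t • D + N = M + (t₁ + t) • D by
      rw [add_nsmul]; abel] at h7
  push_cast
  linarith [le_abs_self (q s₀ + C'), mul_nonneg (Nat.cast_nonneg (α := ℚ) t₁) h5]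

theorem up : ∃ c₁ : ℚ, (c₁ ≤ 0 ∨ 0 < dg d H) ∧
    ∀ M, ∃ C : ℚ, ∀ t : ℕ, n (M + t • D) ≤ t * (max (dg d M) c₁ + σ) + C := by
  have mo : ∀ (M : I →₀ ℤ) (s t : ℕ), n (M + t • D) ≤ n (M + s • H + t • D) := fun M s t =>
    h.mono _ _ (add_le_add_left (le_add_of_nonneg_right (nsmul_nonneg h.hH s)) _)
  have fin : ∀ {M : I →₀ ℤ} {a b : ℚ}, a ≤ b →
      (∃ (s : ℕ) (C : ℚ), ∀ t : ℕ, n (M + s • H + t • D) ≤ t * (a + σ) + C) →
      ∃ C : ℚ, ∀ t : ℕ, n (M + t • D) ≤ t * (b + σ) + C := fun hab ⟨s, C, e⟩ =>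
    ⟨C, fun t => (mo _ s t).trans ((e t).trans (by gcongr))⟩
  rcases (h.step _ h.hH).1.eq_or_lt with h0 | h0
  · refine ⟨0, .inl le_rfl, fun M => fin (le_max_left _ _) ?_⟩
    obtain ⟨s, h1⟩ := h.rate M
    obtain ⟨C, h1⟩ := h1 (s + s₀) (by omega)
    refine ⟨s + s₀, C, fun t => ?_⟩
    have := (abs_le.1 (h1 t)).2
    rw [hσ _ (by omega), ← h0] at this
    linarith
  refine ⟨(s₀ + 1) * dg d H - σ, .inr h0, fun M => ?_⟩
  rcases lt_or_ge 0 (dg d M - s₀ * dg d H + σ) with h1 | h1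
  · exact fin (le_max_left _ _) ⟨0, by simpa using h.up1 hσ h1⟩
  obtain ⟨m, ⟨h2, h3⟩, -⟩ := existsUnique_add_zsmul_mem_Ioc h0 (dg d M - s₀ * dg d H + σ) 0
  rw [zsmul_eq_mul] at h2 h3
  obtain ⟨s, rfl⟩ := Int.eq_ofNat_of_zero_le (a := m)
    (by exact_mod_cast ((mul_pos_iff_of_pos_right (a := (m : ℚ)) h0).1 (by linarith)).le)
  rw [Int.cast_natCast] at h2 h3
  refine fin (a := dg d (M + s • H)) (le_max_of_le_right ?_) ⟨s, h.up1 hσ ?_⟩ <;>
    rw [r_add, r_nsmul] <;> linarith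

end RN

end Pool.Agent.Lib.MP_bc213e_ag.SB
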