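import Pool.Agent.Lib.MP_bc213e_ag.SB.R.Div
import Pool.Agent.Lib.MP_bc213e_ag.SB.R.Num
import Pool.Agent.Lib.MP_bc213e_ag.KBD.Cen
import Pool.Agent.Lib.MP_bc213e_ag.DS.Main

/-! The degree of a nef line bundle on a prime divisor of a surface. -/

namespace Pool.Agent.Lib.MP_bc213e_ag.SB

open Pool.Agent.Lib.MP_bc213e_ag.Hyp Pool.Agent.Lib.MP_bc213e_ag.KBB Pool.Agent.Lib.MP_bc213e_ag.OW
  Pool.Agent.Lib.MP_bc213e_ag.KBD WithZero Module Finsupp

variable {k κ : Type} [Field k] [Algebra ℂ k] {y h : κ → kˣ} {D H : Prm y →₀ ℤ}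
  {J : Idl y} {F : Type} [Field F] [Algebra ℂ F]

theorem r_surj (R : Rd y h J F) (z : F) : ∃ θ ∈ R.O, R.ρ θ = z := by
  have hz : z ∈ IntermediateField.adjoin ℂ (Set.range fun i => (R.x' i : F)) := R.gen ▸ trivial
  induction hz using IntermediateField.adjoin_induction with
  | mem z hz =>
    obtain ⟨i, rfl⟩ := hz
    exact ⟨_, R.res2_x i, R.ρ_x i⟩
  | algebraMap c => exact ⟨_, R.O.algebraMap_mem c, R.res2_c c⟩
  | add a b _ _ ha hb =>
    obtain ⟨a, ha, rfl⟩ := ha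
    obtain ⟨b, hb, rfl⟩ := hb
    exact ⟨a + b, add_mem ha hb, map_add _ _ _⟩
  | mul a b _ _ ha hb =>
    obtain ⟨a, ha, rfl⟩ := ha
    obtain ⟨b, hb, rfl⟩ := hb
    exact ⟨a * b, mul_mem ha hb, R.ρ_mul _ ha _ hb⟩
  | inv a _ ha =>
    obtain ⟨a, ha, rfl⟩ := ha
    by_cases h0 : R.ρ a = 0
    · exact ⟨0, zero_mem _, by rw [h0, inv_zero, map_zero]⟩
    · exact ⟨_, (R.ρ_div (one_mem _) ha h0).1, by
        rw [(R.ρ_div (one_mem _) ha h0).2, R.ρ_one, one_div]⟩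

theorem r_trdeg (R : Rd y h J F) {w : Val k} (hw : ∀ z ∈ R.O, R.ρ z ≠ 0 → w z = 1) {π : k}
    (h0 : π ≠ 0) (h2 : w π < 1) : Algebra.trdeg ℂ F + 1 ≤ Algebra.trdeg ℂ k := by
  obtain ⟨s, hs⟩ := exists_isTranscendenceBasis ℂ F
  choose θ h3 h4 using fun i : s => r_surj R i
  have h5 : ∀ P : MvPolynomial s ℂ, MvPolynomial.aeval θ P ∈ R.O ∧
      R.ρ (MvPolynomial.aeval θ P) = MvPolynomial.aeval (↑) P := fun P => by
    induction P using MvPolynomial.induction_on with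
    | C c => simpa using R.res2_c c
    | add p q hp hq =>
      simp only [map_add, hp.2, hq.2, and_true]
      exact add_mem hp.1 hq.1
    | mul_X p i hp =>
      simp only [map_mul, MvPolynomial.aeval_X, R.ρ_mul _ hp.1 _ (h3 i), hp.2, h4, and_true]
      exact mul_mem hp.1 (h3 i)
  have h6 : ∀ P : MvPolynomial s ℂ, P ≠ 0 → w (MvPolynomial.aeval θ P) = 1 := fun P hP =>
    hw _ (h5 P).1 fun e => hP (hs.1.eq_zero_of_aeval_eq_zero _ ((h5 P).2.symm.trans e))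
  have h7 : AlgebraicIndependent ℂ θ := algebraicIndependent_iff.2 fun P hP => by
    by_contra hn
    simpa [hP] using h6 P hn
  have h8 : LinearIndependent (Algebra.adjoin ℂ (Set.range θ)) fun i : ℕ => π ^ i :=
    DS.indep_val (w := w) (fun c hc => by
      obtain ⟨P, hP⟩ := (Algebra.adjoin_range_eq_range_aeval ℂ θ).le c.2
      change w c.1 = 1
      rw [← hP]
      exact h6 P fun e => hc (Subtype.ext (by rw [← hP, e, map_zero]; rfl)))
      (fun i => pow_ne_zero i h0) fun i j e => by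
        simp only [map_pow] at e
        exact pow_right_injective₀ (zero_lt_iff.2 ((_root_.map_ne_zero w).2 h0)) h2.ne e
  have h9 := (h7.option_iff_transcendental π).2 (transcendental_iff.2 fun p hp => by
    rw [Polynomial.aeval_eq_sum_range] at hp
    ext i
    by_cases hi : i ∈ Finset.range (p.natDegree + 1)
    · rw [linearIndependent_iff'.1 h8 _ _ hp i hi, Polynomial.coeff_zero]
    · rw [Polynomial.coeff_eq_zero_of_natDegree_lt (by simpa using hi), Polynomial.coeff_zero])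
  rw [← hs.cardinalMk_eq_trdeg, ← Cardinal.mk_option]
  exact h9.cardinalMk_le_trdeg

theorem r_growth {ι : Type} [Fintype ι] {x g : ι → Fˣ} (hc : Cart x g) (i₀ : ι)
    (gen : IntermediateField.adjoin ℂ (Set.range fun i => (x i : F)) = ⊤)
    (dim : Algebra.trdeg ℂ F ≤ 1) :
    ∃ B e : ℕ, ∀ t a : ℕ, finrank ℂ (SecS x g t a) ≤ B * (t * e + a + 1) := by
  have : Nonempty ι := ⟨i₀⟩
  obtain ⟨n, hn⟩ := Cardinal.lt_aleph0.1 (dim.trans_lt Cardinal.one_lt_aleph0)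
  obtain ⟨B, hB⟩ := cd_dim _ gen hn
  obtain ⟨e, he⟩ := main_sec hc (-1) i₀
  refine ⟨B, e, fun t a => ?_⟩
  have := (hB (t * e + a)).1
  refine ((finrank_le_of_mul (SecS x g t a)
    (Bd (fun i => (x i : F)) (t * e + a)) (pow_ne_zero t (fr_ne x g (-1) e i₀))
    fun s hs => secS_le_Bd x g _ (by
      have := sec_mul (sec_pow he t) (show Sec x g _ _ s from hs)
      rwa [mul_neg_one, neg_add_cancel] at this)).2.trans (hB _).2).trans
        (Nat.mul_le_mul_left _ ?_)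
  exact (Nat.pow_le_pow_right (by omega) (by exact_mod_cast hn ▸ dim)).trans_eq (pow_one _)

section

variable {V W : Type} [AddCommGroup V] [Module ℂ V] [AddCommGroup W] [Module ℂ W]

theorem r_la1 {A B : Submodule ℂ V} {U : Submodule ℂ W} [FiniteDimensional ℂ A]
    [FiniteDimensional ℂ B] [FiniteDimensional ℂ U] (ψ : V →ₗ[ℂ] W) (h1 : ∀ z ∈ B, ψ z ∈ U)
    (h2 : ∀ z ∈ B, ψ z = 0 → z ∈ A) : finrank ℂ B ≤ finrank ℂ A + finrank ℂ U := by
  have h3 := (ψ.restrict h1).finrank_range_add_finrank_ker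
  have h4 := (LinearMap.range (ψ.restrict h1)).finrank_le
  have h5 : finrank ℂ (LinearMap.ker (ψ.restrict h1)) ≤ finrank ℂ A := by
    rw [← Submodule.finrank_map_subtype_eq]
    refine Submodule.finrank_mono ?_
    rintro _ ⟨z, hz, rfl⟩
    exact h2 _ z.2 (congrArg Subtype.val hz)
  omega

theorem r_la2 {A B S : Submodule ℂ V} {U : Submodule ℂ W} [FiniteDimensional ℂ B]
    [FiniteDimensional ℂ U] (hA : A ≤ B) (μ : V →ₗ[ℂ] V) (ψ : V →ₗ[ℂ] W) (h0 : ∀ z ∈ S, ψ z ∈ U)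
    (h1 : ∀ u ∈ U, ∃ z ∈ S, ψ z = u) (h2 : ∀ z ∈ S, μ z ∈ B) (h3 : ∀ z ∈ S, μ z ∈ A → ψ z = 0) :
    finrank ℂ A + finrank ℂ U ≤ finrank ℂ B := by
  have := Submodule.finiteDimensional_of_le hA
  obtain ⟨σ, hσ⟩ := (ψ.restrict h0).exists_rightInverse_of_surjective
    (LinearMap.range_eq_top.2 fun u => let ⟨z, a, b⟩ := h1 u u.2; ⟨⟨z, a⟩, Subtype.ext b⟩)
  rw [← finrank_prod]
  refine LinearMap.finrank_le_finrank_of_injective
    (f := (Submodule.inclusion hA).coprod (μ.restrict h2 ∘ₗ σ))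
    ((injective_iff_map_eq_zero _).2 fun z hz => ?_)
  have e : (z.1 : V) + μ (σ z.2) = 0 := congrArg Subtype.val hz
  have e2 : z.2 = 0 := (LinearMap.congr_fun hσ z.2).symm.trans (Subtype.ext
    (h3 _ (σ z.2).2 (eq_neg_of_add_eq_zero_right e ▸ neg_mem z.1.2)))
  exact Prod.ext (Subtype.ext (by simpa [e2] using e)) e2

end

/-- The restriction of sections to a prime divisor. -/
theorem r_res [Fintype κ] (hc : Cart y h) (hn : Nef y h) (dim : Algebra.trdeg ℂ k ≤ 2)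
    (hD : IsDiv h D) (hH : IsDiv y H) (w : Prm y) : ∃ (d : ℚ) (s₁ : ℕ), 0 ≤ d ∧ ∀ s, s₁ ≤ s →
      ∃ c : ℚ, ∀ t : ℕ, ∃ (W : Type) (_ : AddCommGroup W) (_ : Module ℂ W) (U : Submodule ℂ W)
        (ψ : k →ₗ[ℂ] W), FiniteDimensional ℂ U ∧ (finrank ℂ U : ℚ) = t * d + c ∧
        (∀ z ∈ SecS y h t s, ψ z ∈ U ∧ (ψ z = 0 ↔ w.1 z < exp ((s • H + t • D) w))) ∧
        ∀ u ∈ U, ∃ z ∈ SecS y h t s, ψ z = u := by
  classical
  obtain ⟨b, hb⟩ := w.2
  obtain ⟨F1, _, _, ⟨ρ⟩⟩ := exists_rs w.1.valuationSubring (r_triv w)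
  obtain ⟨R, hi, hR⟩ := exists_rd_cen ρ hc (i₀ := b) fun l => hb.2.1 _ (Basic_mem y b l)
  have hk : ∀ z ∈ R.O, R.ρ z = 0 ↔ w.1 z < 1 := fun z hz => by
    rw [← ZeroMemClass.coe_eq_zero, (hR z hz).2, ρ.ker z (hR z hz).1,
      ← (Valuation.isEquiv_valuation_valuationSubring w.1).lt_one_iff_lt_one]
  have hb' : PrimeDiv (chart y R.i₀) w.1 := by rwa [hi]
  obtain ⟨π, hπ⟩ := hb'.1
  have h1 := (r_trdeg R (w := w.1) (fun z hz h0 => eq_of_le_of_not_lt (hR z hz).1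
    (mt (hk z hz).2 h0)) (π := π) (fun e => by simpa [e] using hπ.symm)
    (by rw [hπ, ← exp_zero, exp_lt_exp]; omega)).trans dim
  have : Nonempty _ := ⟨R.i₀⟩
  obtain ⟨B, e, h2⟩ := r_growth (R.cart hc) R.i₀ R.gen
    ((Cardinal.add_le_add_iff_of_lt_aleph0 Cardinal.one_lt_aleph0).1 (h1.trans_eq (by norm_num)))
  obtain ⟨P, a₀, h3⟩ := uniform _ _ (R.cart hc) (R.nef hn)
  obtain ⟨d, h4, h5⟩ := r_const (fun t s hs => (h3 t s hs).2) h2
  obtain ⟨a₁, h6⟩ := lift_sec hc hn R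
  refine ⟨d, a₀ + a₁, h4, fun s hs => (h5 s (by omega)).imp fun c h7 t => ⟨_, _, _,
    SecS R.x' R.g' t s, R.ρ ∘ₗ LinearMap.mulRight ℂ (fr y h t s R.i₀)⁻¹, (h3 t s (by omega)).1,
    h7 t, fun z hz => ?_, fun u hu => ?_⟩⟩
  · rw [LinearMap.comp_apply, LinearMap.mulRight_apply, ← div_eq_mul_inv,
      hk _ (R.le _ _ (sec_iff_fr.1 hz _)), map_div₀ w.1, hD.fr hH t s hb', div_lt_one₀ exp_pos]
    exact ⟨R.res2_sec hz, Iff.rfl⟩
  · exact (h6 t s (by omega) u hu).imp fun z hz => ⟨hz.1, by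
      rw [LinearMap.comp_apply, LinearMap.mulRight_apply, ← div_eq_mul_inv, hz.2]⟩

theorem r_drop {M : Prm y →₀ ℤ} {w : Prm y} {z : k} (hz : z ∈ GG (M + single w 1)) :
    z ∈ GG M ↔ w.1 z < exp (M w + 1) := by
  refine ⟨fun h => (h w).trans_lt (exp_lt_exp.2 (lt_add_one _)), fun h v => ?_⟩
  by_cases hv : v = w
  · have := primeExp ((div_lt_one₀ exp_pos).2 h)
    rwa [div_le_iff₀ exp_pos, ← exp_add, add_comm (M w), neg_add_cancel_left, ← hv] at this
  · simpa [single_eq_of_ne hv] using hz v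

theorem r_loc [Fintype κ] (frac : ∀ b, IsFractionRing (chart y b) k)
    (norm : ∀ b, IsIntegrallyClosed (chart y b)) (hc : Cart y h) (hn : Nef y h)
    (dim : Algebra.trdeg ℂ k ≤ 2) (hD : IsDiv h D) (hH : IsDiv y H)
    (fd : ∀ M : Prm y →₀ ℤ, FiniteDimensional ℂ (GG M)) (w : Prm y) : ∃ d : ℚ, 0 ≤ d ∧
      (∀ M, ∃ C : ℚ, ∀ t : ℕ, (finrank ℂ (GG (M + single w 1 + t • D)) : ℚ) ≤
        finrank ℂ (GG (M + t • D)) + t * d + C) ∧
      ∀ M, ∃ s₁, ∀ s : ℕ, s₁ ≤ s → ∃ C : ℚ, ∀ t : ℕ,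
        finrank ℂ (GG (M + s • H + t • D)) + t * d - C ≤
          finrank ℂ (GG (M + single w 1 + s • H + t • D)) := by
  obtain ⟨d, s₁, h0, h1⟩ := r_res hc hn dim hD hH w
  refine ⟨d, h0, fun M => ?_, fun M => ?_⟩
  · obtain ⟨s, h2⟩ := hH.ex_large frac w (-(M + single w 1))
    obtain ⟨e, h2, h3⟩ := h2 (s + s₁) (by omega)
    refine (h1 (s + s₁) (by omega)).imp fun c h1 t => ?_
    obtain ⟨W, _, _, U, ψ, _, h4, h5, -⟩ := h1 t
    have h6 : ∀ z ∈ GG (M + single w 1 + t • D), e * z ∈ SecS y h t (s + s₁) := fun z hz => by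
      have := GG_mul h2 hz
      rwa [show -(M + single w 1) + (s + s₁) • H + (M + single w 1 + t • D) =
        (s + s₁) • H + t • D by abel, ← hD.secS frac norm hH] at this
    rw [add_assoc (_ : ℚ), ← h4]
    exact_mod_cast r_la1 (ψ ∘ₗ LinearMap.mulLeft ℂ e) (fun z hz => (h5 _ (h6 z hz)).1)
      fun z hz h7 => by
        have h8 := (h5 _ (h6 z hz)).2.1 h7
        rw [map_mul, h3, ← lt_div_iff₀' exp_pos, ← exp_sub] at h8
        rw [add_right_comm] at hz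
        refine (r_drop hz).2 (h8.trans_eq (congrArg exp ?_))
        simp only [Finsupp.add_apply, Finsupp.neg_apply, single_eq_same]
        ring
  · obtain ⟨s₂, h2⟩ := hH.ex_large frac w (M + single w 1)
    obtain ⟨e, h2, h3⟩ := h2 s₂ le_rfl
    refine ⟨s₂ + s₁, fun s hs => ?_⟩
    obtain ⟨s, rfl⟩ := Nat.exists_eq_add_of_le ((Nat.le_add_right _ _).trans hs)
    obtain ⟨c, h1⟩ := h1 s (by omega)
    refine ⟨-c, fun t => ?_⟩
    obtain ⟨W, _, _, U, ψ, _, h4, h5, h6⟩ := h1 t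
    have h7 : ∀ z ∈ SecS y h t s, e * z ∈ GG (M + (s₂ + s) • H + t • D + single w 1) :=
      fun z hz => by
        have := GG_mul h2 (hD.sec hH hz)
        rwa [show M + single w 1 + s₂ • H + (s • H + t • D) =
          M + (s₂ + s) • H + t • D + single w 1 by rw [add_nsmul]; abel] at this
    rw [sub_neg_eq_add, add_assoc (_ : ℚ), ← h4, add_right_comm M (single w 1),
      add_right_comm _ (single w 1)]
    exact_mod_cast r_la2 (GG_mono (le_add_of_nonneg_right (by simp))) (LinearMap.mulLeft ℂ e) ψ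
      (fun z hz => (h5 z hz).1) h6 h7 fun z hz h8 => (h5 z hz).2.2 (by
        have h9 := (r_drop (h7 z hz)).1 h8
        rw [map_mul, h3, ← lt_div_iff₀' exp_pos, ← exp_sub] at h9
        refine h9.trans_eq (congrArg exp ?_)
        simp only [add_nsmul, Finsupp.add_apply, single_eq_same]
        ring)

end Pool.Agent.Lib.MP_bc213e_ag.SB
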